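import Mathlib
import Pool.Agent.W860.LineFree

open Finset

namespace Pool.Agent.Results.MP_b30443_co.LineFree

/-- `A ⊆ F_p^n` contains no nontrivial `k`-term progression `x, x+y, …, x+(k-1)y` with `y ≠ 0`. -/
def APFree (k p n : ℕ) (A : Finset (Fin n → ZMod p)) : Prop :=
  ∀ x y : Fin n → ZMod p, (∀ i : ℕ, i < k → x + i • y ∈ A) → y = 0

/-- `r_k(F_p^n)`: the largest size of a subset of `F_p^n` without nontrivial `k`-term
progressions. -/
noncomputable def r (k p n : ℕ) : ℕ :=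
  sSup {m : ℕ | ∃ A : Finset (Fin n → ZMod p), APFree k p n A ∧ A.card = m}

/-- `λ_{k,p} = sup_{n ≥ 1} r_k(F_p^n)^{1/n}`. -/
noncomputable def lam (k p : ℕ) : ℝ :=
  ⨆ n : ℕ, (r k p (n + 1) : ℝ) ^ (1 / ((n : ℝ) + 1))

variable {p : ℕ} [hpf : Fact p.Prime]

lemma card_le_r {k n : ℕ} {A : Finset (Fin n → ZMod p)} (hA : APFree k p n A) :
    A.card ≤ r k p n := by
  unfold r
  apply le_csSup
  · refine ⟨Fintype.card (Fin n → ZMod p), ?_⟩
    rintro m ⟨B, _, rfl⟩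
    exact Finset.card_le_univ B
  · exact ⟨A, hA, rfl⟩

lemma r_le (k n : ℕ) : r k p n ≤ p ^ n := by
  unfold r
  apply csSup_le'
  rintro m ⟨B, _, rfl⟩
  calc B.card ≤ Fintype.card (Fin n → ZMod p) := Finset.card_le_univ B
    _ = p ^ n := by simp [ZMod.card]

lemma le_lam (k n : ℕ) : (r k p (n + 1) : ℝ) ^ (1 / ((n : ℝ) + 1)) ≤ lam k p := by
  unfold lam
  refine le_ciSup (f := fun n : ℕ => (r k p (n + 1) : ℝ) ^ (1 / ((n : ℝ) + 1))) ?_ n
  refine ⟨(p : ℝ), ?_⟩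
  rintro _ ⟨m, rfl⟩
  have h1 : (r k p (m + 1) : ℝ) ≤ (p : ℝ) ^ (m + 1) := by exact_mod_cast r_le k (m + 1)
  have h2 : (0 : ℝ) ≤ (r k p (m + 1) : ℝ) := by positivity
  calc (r k p (m + 1) : ℝ) ^ (1 / ((m : ℝ) + 1))
      ≤ ((p : ℝ) ^ (m + 1)) ^ (1 / ((m : ℝ) + 1)) :=
        Real.rpow_le_rpow h2 h1 (by positivity)
    _ = (p : ℝ) := by
        have : ((m : ℝ) + 1) = ((m + 1 : ℕ) : ℝ) := by push_cast; ring
        rw [this, one_div, Real.pow_rpow_inv_natCast (by positivity) (by omega)]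

lemma pow_lt (p : ℕ) (hp : 3 ≤ p) : p ^ 12 < 96 ^ p := by
  induction p, hp using Nat.le_induction with
  | base => norm_num
  | succ m hm ih =>
    -- `(m+1)^12 ≤ (4/3)^12 m^12 < 32 m^12`
    have h1 : 3 * (m + 1) ≤ 4 * m := by omega
    have h2 : (3 * (m + 1)) ^ 12 ≤ (4 * m) ^ 12 := Nat.pow_le_pow_left h1 12
    rw [mul_pow, mul_pow] at h2
    have h3 : (4 : ℕ) ^ 12 ≤ 96 * 3 ^ 12 := by norm_num
    have h4 : 3 ^ 12 * (m + 1) ^ 12 ≤ 3 ^ 12 * (96 * m ^ 12) := by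
      calc 3 ^ 12 * (m + 1) ^ 12 ≤ 4 ^ 12 * m ^ 12 := h2
        _ ≤ (96 * 3 ^ 12) * m ^ 12 := Nat.mul_le_mul_right _ h3
        _ = 3 ^ 12 * (96 * m ^ 12) := by ring
    have h5 : (m + 1) ^ 12 ≤ 96 * m ^ 12 := Nat.le_of_mul_le_mul_left h4 (by norm_num)
    rw [pow_succ 96 m]
    omega

/-- Let `p` be an odd prime, `n = 3(p-1)(p-2)` and take `k = p` (sets without full lines).
Then `r_p(F_p^n) ≥ 96 p^(n-6)`, hence `λ_{p,p} ≥ p (96/p^6)^(1/(3(p-1)(p-2)))`, and this is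
larger than `p^(1 - 2/(p(p-1)))`. -/
theorem result (p : ℕ) [Fact p.Prime] (hp : p ≠ 2) :
    96 * p ^ (3 * (p - 1) * (p - 2) - 6) ≤ r p p (3 * (p - 1) * (p - 2)) ∧
    (p : ℝ) * (96 / (p : ℝ) ^ 6) ^ (1 / (3 * ((p : ℝ) - 1) * ((p : ℝ) - 2))) ≤ lam p p ∧
    (p : ℝ) ^ (1 - 2 / ((p : ℝ) * ((p : ℝ) - 1))) <
      (p : ℝ) * (96 / (p : ℝ) ^ 6) ^ (1 / (3 * ((p : ℝ) - 1) * ((p : ℝ) - 2))) := by
  classical
  have hpp : p.Prime := Fact.out
  have hp3 : 3 ≤ p := by
    have := hpp.two_le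
    omega
  obtain ⟨D, hD, A, hA, hline⟩ := Pool.Agent.W860.LineFree.exists_blocks hp
  set n := 3 * (p - 1) * (p - 2) with hn
  have hn6 : n = 6 * D := by
    have : 3 * (p - 1) * (p - 2) = 3 * ((p - 2) * (p - 1)) := by ring
    rw [hn, this, ← hD]
    ring
  have hD1 : 1 ≤ D := by
    have : 1 * 2 ≤ (p - 2) * (p - 1) := Nat.mul_le_mul (by omega) (by omega)
    omega
  obtain ⟨e⟩ : Nonempty (Fin n ≃ Fin 6 × Fin D) :=
    ⟨(finCongr hn6).trans finProdFinEquiv.symm⟩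
  let B : Finset (Fin n → ZMod p) := Finset.univ.filter (fun x => (fun q => x (e.symm q)) ∈ A)
  have hBcard : B.card = A.card := by
    apply Finset.card_bij (fun x _ => fun q => x (e.symm q))
    · intro x hx
      exact (Finset.mem_filter.mp hx).2
    · intro x _ x' _ h
      funext i
      have := congrFun h (e i)
      simpa using this
    · intro a ha
      have e1 : (fun q => (fun i => a (e i)) (e.symm q)) = a := by
        funext q
        exact congrArg a (e.apply_symm_apply q)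
      refine ⟨fun i => a (e i), ?_, e1⟩
      rw [Finset.mem_filter]
      refine ⟨Finset.mem_univ _, ?_⟩
      rw [e1]
      exact ha
  have hBfree : APFree p p n B := by
    intro x y hxy
    have hy := hline (fun q => x (e.symm q)) (fun q => y (e.symm q)) (by
      intro s
      have := hxy s.val (ZMod.val_lt s)
      have h2 := (Finset.mem_filter.mp this).2
      convert h2 using 1
      funext q
      have e1 : (x + s.val • y) (e.symm q) = x (e.symm q) + s.val • y (e.symm q) := rfl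
      rw [e1, nsmul_eq_mul, ZMod.natCast_zmod_val]
      rfl)
    funext i
    have := congrFun hy (e i)
    simpa using this
  have hr1 : 96 * p ^ (n - 6) ≤ r p p n := by
    refine le_trans ?_ (card_le_r hBfree)
    rw [hBcard]
    have h6 : 6 * D = (n - 6) + 6 := by omega
    rw [h6, pow_add, ← mul_assoc] at hA
    exact Nat.le_of_mul_le_mul_right hA (pow_pos hpp.pos 6)
  have hpos : (0 : ℝ) < p := by exact_mod_cast hpp.pos
  have hp3' : (3 : ℝ) ≤ p := by exact_mod_cast hp3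
  have hN : (3 * ((p : ℝ) - 1) * ((p : ℝ) - 2)) = (n : ℝ) := by
    rw [hn]
    push_cast [Nat.cast_sub (show 1 ≤ p by omega), Nat.cast_sub (show 2 ≤ p by omega)]
    ring
  have hn0 : n ≠ 0 := by omega
  have hnpos : (0 : ℝ) < n := by exact_mod_cast Nat.pos_of_ne_zero hn0
  have heq : (p : ℝ) * (96 / (p : ℝ) ^ 6) ^ (1 / (n : ℝ)) =
      (96 * (p : ℝ) ^ (n - 6)) ^ (1 / (n : ℝ)) := by
    have h1 : (p : ℝ) = ((p : ℝ) ^ n) ^ (1 / (n : ℝ)) := by
      rw [one_div, Real.pow_rpow_inv_natCast hpos.le hn0]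
    nth_rewrite 1 [h1]
    rw [← Real.mul_rpow (by positivity) (by positivity)]
    congr 1
    have h6 : n = (n - 6) + 6 := by omega
    nth_rewrite 1 [h6]
    rw [pow_add]
    field_simp
  refine ⟨hr1, ?_, ?_⟩
  · rw [hN, heq]
    obtain ⟨m, hm⟩ : ∃ m, n = m + 1 := ⟨n - 1, by omega⟩
    have hle := le_lam (p := p) p m
    have hm' : ((m : ℝ) + 1) = (n : ℝ) := by rw [hm]; push_cast; ring
    rw [hm', ← hm] at hle
    refine le_trans ?_ hle
    apply Real.rpow_le_rpow (by positivity) _ (by positivity)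
    exact_mod_cast hr1
  · rw [hN]
    have h1 : (p : ℝ) ^ (1 - 2 / ((p : ℝ) * ((p : ℝ) - 1))) =
        (p : ℝ) * (p : ℝ) ^ (- (2 / ((p : ℝ) * ((p : ℝ) - 1)))) := by
      rw [sub_eq_add_neg, Real.rpow_add hpos, Real.rpow_one]
    rw [h1]
    apply mul_lt_mul_of_pos_left _ hpos
    have hexp : -(2 / ((p : ℝ) * ((p : ℝ) - 1))) = (-(6 * ((p : ℝ) - 2)) / p) * (1 / (n : ℝ)) := by
      rw [← hN]
      have h2 : ((p : ℝ) - 1) ≠ 0 := by linarith
      have h3 : ((p : ℝ) - 2) ≠ 0 := by linarith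
      field_simp
      ring
    rw [hexp, Real.rpow_mul hpos.le]
    apply Real.rpow_lt_rpow (by positivity) _ (by positivity)
    -- `p^(-6(p-2)/p) < 96/p^6`, i.e. `p^(12/p) < 96`
    have h4 : (-(6 * ((p : ℝ) - 2)) / p) = 12 / (p : ℝ) - 6 := by
      field_simp
      ring
    rw [h4, Real.rpow_sub hpos]
    have h5 : (p : ℝ) ^ (6 : ℝ) = (p : ℝ) ^ (6 : ℕ) := by
      rw [← Real.rpow_natCast]
      norm_num
    rw [h5]
    apply div_lt_div_of_pos_right _ (by positivity)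
    have h6 : (p : ℝ) ^ (12 / (p : ℝ)) = ((p : ℝ) ^ (12 : ℕ)) ^ (1 / (p : ℝ)) := by
      rw [← Real.rpow_natCast, ← Real.rpow_mul hpos.le]
      congr 1
      push_cast
      ring
    have h7 : (96 : ℝ) = ((96 : ℝ) ^ p) ^ (1 / (p : ℝ)) := by
      rw [one_div, Real.pow_rpow_inv_natCast (by norm_num) (by omega)]
    rw [h6, h7]
    apply Real.rpow_lt_rpow (by positivity) _ (by positivity)
    exact_mod_cast pow_lt p hp3

end Pool.Agent.Results.MP_b30443_co.LineFree
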